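import Pool.Agent.Helper52.TD.G

/-!
# A two-dimensional universal pattern generator

Row `0` is a one-dimensional reversible automaton in which two machines run binary counters and
read the digits to two walls; between the walls the digits can drive the row to any content.  The
row `k + 1` sees the row `k`: a wall below makes a wall, and a special output below turns a cell by
a cyclic permutation of all states.  So the walls copy themselves upwards with the speed of light,
and, as the finitely many states between the walls are permuted, all contents of the lowest `n` rows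
between the walls are connected; a universal control word is read by the machine at some time.
-/

set_option autoImplicit false

namespace Pool.Agent.Results.MP_bafe5d_lc.WeakGenerator

/-- the global map of the two-dimensional cellular automaton with neighbourhood `N` and local
rule `f` -/
def CA {S : Type} (N : Finset (ℤ × ℤ)) (f : (N → S) → S) (c : ℤ × ℤ → S) : ℤ × ℤ → S :=
  fun v => f fun u => c (v + u)

/-- the pattern `p` with domain `D` appears in the configuration `c`, translated by `w` -/
def AppearsAt {S : Type} {D : Finset (ℤ × ℤ)} (p : D → S) (w : ℤ × ℤ) (c : ℤ × ℤ → S) : Prop :=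
  ∀ d : D, c (w + d) = p d

open Pool.Agent.H63.UP Pool.Agent.Helper52.TD in
/-- There are a finite state set with at least two states, a quiescent state `0`, a two-dimensional
cellular automaton and a finite configuration `x` such that every finite pattern appears in some
iterate of `x`; it even appears at every position in the upper half plane. -/
theorem result : ∃ (S : Type) (zero : S) (N : Finset (ℤ × ℤ)) (f : (N → S) → S) (x : ℤ × ℤ → S),
    Finite S ∧ Nontrivial S ∧ f (fun _ => zero) = zero ∧ {v | x v ≠ zero}.Finite ∧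
    (∀ (D : Finset (ℤ × ℤ)) (p : D → S), ∃ (n : ℕ) (w : ℤ × ℤ), AppearsAt p w ((CA N f)^[n] x)) ∧
    ∀ (D : Finset (ℤ × ℤ)) (p : D → S) (w : ℤ × ℤ), (∀ d ∈ D, 0 ≤ (w + d).2) →
      ∃ n : ℕ, AppearsAt p w ((CA N f)^[n] x) := by
  classical
  let N : Finset (ℤ × ℤ) := {(-1, -1), (0, -1), (1, -1), (-1, 0), (0, 0), (1, 0)}
  let f : (N → S) → S := fun s =>
    (((act (kap (s ⟨(0, -1), by decide⟩)) (s ⟨(0, 0), by decide⟩)).1.1,
      (act (kap (s ⟨(-1, -1), by decide⟩)) (s ⟨(-1, 0), by decide⟩)).1.2.1,
      (act (kap (s ⟨(1, -1), by decide⟩)) (s ⟨(1, 0), by decide⟩)).1.2.2),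
      (act (kap (s ⟨(-1, -1), by decide⟩)) (s ⟨(-1, 0), by decide⟩)).2.1,
      (act (kap (s ⟨(1, -1), by decide⟩)) (s ⟨(1, 0), by decide⟩)).2.2)
  have step : ∀ (y : ℤ → ℤ → S), CA N f (fun v => y v.2 v.1) = fun v => F2 y v.2 v.1 := by
    intro y
    funext ⟨i, j⟩
    simp only [CA, f, F2, Mv, Prod.mk_add_mk, add_zero, ← sub_eq_add_neg]
  have orb : ∀ n : ℕ, (CA N f)^[n] (fun v => y0 v.2 v.1) = fun v => G n v.2 v.1 := by
    intro n
    induction n with
    | zero => rfl
    | succ n ih =>
      rw [Function.iterate_succ_apply', ih, step]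
      unfold G
      rw [Function.iterate_succ_apply']
  have main : ∀ (D : Finset (ℤ × ℤ)) (p : D → S) (w : ℤ × ℤ), (∀ d ∈ D, 0 ≤ (w + d).2) →
      ∃ n : ℕ, AppearsAt p w ((CA N f)^[n] (fun v => y0 v.2 v.1)) := by
    intro D p w hw
    obtain ⟨t, ht⟩ := dense2 (fun j i => if h : (i, j) - w ∈ D then p ⟨(i, j) - w, h⟩ else z)
      (∑ d ∈ D, ((w + d).1.natAbs + (w + d).2.natAbs))
    refine ⟨t, fun d => ?_⟩
    have b := Finset.single_le_sum (f := fun d => ((w + d).1.natAbs + (w + d).2.natAbs))
      (fun _ _ => Nat.zero_le _) d.2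
    have h0 := hw _ d.2
    rw [orb]
    dsimp only
    rw [ht _ _ h0 (by omega) (by omega) (by omega)]
    have e : ((w + (d : ℤ × ℤ)).1, (w + (d : ℤ × ℤ)).2) - w = d := by
      rw [Prod.mk.eta]; exact add_sub_cancel_left _ _
    simp only [e, Subtype.coe_eta, dif_pos d.2]
  refine ⟨S, z, N, f, fun v => y0 v.2 v.1, inferInstance, inferInstance, ?_, ?_, ?_, main⟩
  · simp only [f, kap_z, act_zero, P_z]
  · refine (((x0_fin (4 ^ 43 : ℕ)).prod (Set.finite_singleton (0 : ℤ)))).subset fun v hv => ?_
    have hv : y0 v.2 v.1 ≠ z := hv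
    unfold y0 at hv
    split_ifs at hv with h
    · exact ⟨hv, h⟩
    · exact absurd rfl hv
  · intro D p
    obtain ⟨n, hn⟩ := main D p (0, ((∑ d ∈ D, d.2.natAbs : ℕ) : ℤ)) (fun d hd => by
      have b := Finset.single_le_sum (f := fun d : ℤ × ℤ => d.2.natAbs)
        (fun _ _ => Nat.zero_le _) hd
      simp only [Prod.snd_add]
      omega)
    exact ⟨n, _, hn⟩

end Pool.Agent.Results.MP_bafe5d_lc.WeakGenerator
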